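import Pool.Agent.Q189.Spencer2

/-! Six standard deviations for any number of vectors. -/

set_option autoImplicit false

open Finset

namespace Pool.Agent.Helper8.VB

/-- partial colouring for a finite index type -/
theorem partial_ty {ι : Type} [Fintype ι] [DecidableEq ι] (m : ℕ) (hM : 4 ≤ Fintype.card ι)
    (hMm : Fintype.card ι ≤ m) (a : ι → Fin m → ℝ) (ha : ∀ i k, |a i k| ≤ 1) :
    ∃ δ : ι → ℝ, (∀ i, δ i = 0 ∨ δ i = 1 ∨ δ i = -1) ∧
      (Fintype.card ι : ℝ) ≤ 10 * ((univ.filter fun i => δ i ≠ 0).card : ℝ) ∧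
      ∀ k, |∑ i, δ i * a i k| ≤ 50 * √(√((m : ℝ) * Fintype.card ι)) := by
  classical
  let e := Fintype.equivFin ι
  obtain ⟨δ, h1, h2, h3⟩ := Q189.Spencer.partial_fin (Fintype.card ι) m hM hMm
    (fun i => a (e.symm i)) (fun i k => ha _ k)
  refine ⟨fun i => δ (e i), fun i => h1 _, ?_, fun k => ?_⟩
  · have : (univ.filter fun i : ι => δ (e i) ≠ 0).card =
        (univ.filter fun i => δ i ≠ 0).card := by
      refine Finset.card_bij (fun i _ => e i) ?_ ?_ ?_
      · intro i hi; simpa using hi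
      · intro i _ j _ h; exact e.injective h
      · intro j hj
        exact ⟨e.symm j, by simpa using hj, by simp⟩
    rw [this]; exact h2
  · have : ∑ i, δ (e i) * a i k = ∑ i, δ i * a (e.symm i) k := by
      rw [← Equiv.sum_comp e (fun i => δ i * a (e.symm i) k)]
      simp
    rw [this]; exact h3 k

lemma root_bound (x : ℝ) (y : ℝ) (hx : 0 ≤ x) (hxy : x ≤ 9 / 10 * y) :
    √(√x) ≤ 975 / 1000 * √(√y) := by
  have hy : 0 ≤ y := by linarith
  have h1 : √x ≤ (975/1000)^2 * √y := by
    have : √((975/1000 : ℝ)^4 * y) = (975/1000)^2 * √y := by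
      rw [Real.sqrt_mul (by positivity)]
      congr 1
      rw [show (975/1000 : ℝ)^4 = ((975/1000)^2)^2 by ring, Real.sqrt_sq (by positivity)]
    rw [← this]
    apply Real.sqrt_le_sqrt
    norm_num
    linarith
  have : √((975/1000 : ℝ)^2 * √y) = 975/1000 * √(√y) := by
    rw [Real.sqrt_mul (by positivity), Real.sqrt_sq (by positivity)]
  rw [← this]
  exact Real.sqrt_le_sqrt h1

/-- full colouring of at most `m` vectors -/
theorem full (m : ℕ) : ∀ (M : ℕ) (ι : Type) [Fintype ι] [DecidableEq ι], Fintype.card ι = M →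
    M ≤ m → ∀ a : ι → Fin m → ℝ, (∀ i k, |a i k| ≤ 1) →
    ∃ δ : ι → ℝ, (∀ i, δ i = 1 ∨ δ i = -1) ∧
      ∀ k, |∑ i, δ i * a i k| ≤ 2000 * √(√((m : ℝ) * M)) + 3 := by
  intro M
  induction M using Nat.strong_induction_on with
  | _ M ih =>
    intro ι _ _ hcard hMm a ha
    by_cases h4 : 4 ≤ M
    · obtain ⟨δ, h1, h2, h3⟩ := partial_ty m (by rw [hcard]; exact h4) (by rw [hcard]; exact hMm)
        a ha
      rw [hcard] at h2 h3
      let Z := {i : ι // δ i = 0}
      have hZ : (Fintype.card Z : ℝ) ≤ 9 / 10 * M := by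
        have e1 : Fintype.card Z = (univ.filter fun i => δ i = 0).card := by
          rw [Fintype.card_subtype]
        have e2 : (univ.filter fun i => δ i = 0).card + (univ.filter fun i => δ i ≠ 0).card =
            M := by
          rw [← hcard, ← Finset.card_univ]
          exact Finset.card_filter_add_card_filter_not (s := univ) (fun i => δ i = 0)
        have e3 : ((univ.filter fun i => δ i = 0).card : ℝ) +
            ((univ.filter fun i => δ i ≠ 0).card : ℝ) = M := by exact_mod_cast e2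
        rw [e1]
        linarith
      have hM0 : (0:ℝ) < M := by exact_mod_cast (by omega : 0 < M)
      have hZlt : Fintype.card Z < M := by
        have : (Fintype.card Z : ℝ) < M := by linarith
        exact_mod_cast this
      obtain ⟨η, g1, g2⟩ := ih (Fintype.card Z) hZlt Z rfl (by omega) (fun i => a i.1)
        (fun i k => ha _ k)
      refine ⟨fun i => if h : δ i = 0 then η ⟨i, h⟩ else δ i, fun i => ?_, fun k => ?_⟩
      · by_cases h : δ i = 0
        · simp only [h, dif_pos]; exact g1 _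
        · simp only [h, dif_neg, not_false_eq_true]
          rcases h1 i with h' | h'
          · exact absurd h' h
          · exact h'
      · have e : ∑ i, (if h : δ i = 0 then η ⟨i, h⟩ else δ i) * a i k =
            ∑ i, δ i * a i k + ∑ z : Z, η z * a z.1 k := by
          have e1 : ∑ z : Z, η z * a z.1 k =
              ∑ i, (if h : δ i = 0 then η ⟨i, h⟩ * a i k else 0) := by
            rw [← Finset.sum_filter_add_sum_filter_not univ (fun i => δ i = 0)]
            rw [Finset.sum_eq_zero (s := univ.filter fun i => ¬ δ i = 0), add_zero]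
            · rw [Finset.sum_subtype (univ.filter fun i => δ i = 0) (p := fun i => δ i = 0)
                (by simp)]
              refine Finset.sum_congr rfl fun z _ => ?_
              rw [dif_pos z.2]
            · intro i hi
              rw [dif_neg (by simpa using hi)]
          rw [e1, ← Finset.sum_add_distrib]
          refine Finset.sum_congr rfl fun i _ => ?_
          by_cases h : δ i = 0
          · simp [h]
          · simp [h]
        rw [e]
        have b1 := h3 k
        have b2 := g2 k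
        have b3 : √(√((m : ℝ) * Fintype.card Z)) ≤ 975 / 1000 * √(√((m : ℝ) * M)) := by
          apply root_bound _ _ (by positivity)
          have : (0:ℝ) ≤ m := by positivity
          nlinarith
        have b4 := abs_add_le (∑ i, δ i * a i k) (∑ z : Z, η z * a z.1 k)
        linarith
    · refine ⟨fun _ => 1, fun _ => Or.inl rfl, fun k => ?_⟩
      have h1 : |∑ i, (1:ℝ) * a i k| ≤ ∑ _i : ι, (1:ℝ) := by
        refine (Finset.abs_sum_le_sum_abs _ _).trans (Finset.sum_le_sum fun i _ => ?_)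
        rw [one_mul]; exact ha i k
      rw [Finset.sum_const, Finset.card_univ, hcard, nsmul_eq_mul, mul_one] at h1
      have h2 : (M:ℝ) ≤ 3 := by exact_mod_cast (by omega : M ≤ 3)
      have h3 : 0 ≤ √(√((m : ℝ) * M)) := Real.sqrt_nonneg _
      linarith

/-- full colouring, a bound in terms of `m` -/
theorem full' (m : ℕ) (hm : 1 ≤ m) (ι : Type) [Fintype ι] [DecidableEq ι]
    (hι : Fintype.card ι ≤ m) (a : ι → Fin m → ℝ) (ha : ∀ i k, |a i k| ≤ 1) :
    ∃ δ : ι → ℝ, (∀ i, δ i = 1 ∨ δ i = -1) ∧ ∀ k, |∑ i, δ i * a i k| ≤ 2003 * √(m : ℝ) := by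
  obtain ⟨δ, h1, h2⟩ := full m (Fintype.card ι) ι rfl hι a ha
  refine ⟨δ, h1, fun k => (h2 k).trans ?_⟩
  have hm' : (1:ℝ) ≤ m := by exact_mod_cast hm
  have h3 : √(√((m : ℝ) * Fintype.card ι)) ≤ √(m:ℝ) := by
    apply Real.sqrt_le_sqrt
    rw [Real.sqrt_le_left (by positivity)]
    have : (Fintype.card ι : ℝ) ≤ m := by exact_mod_cast hι
    nlinarith
  have h4 : 1 ≤ √(m:ℝ) := by rw [Real.one_le_sqrt]; exact hm'
  linarith

/-- rounding of dyadic coefficients -/
theorem round_dyadic (m : ℕ) (hm : 1 ≤ m) (ι : Type) [Fintype ι] [DecidableEq ι]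
    (hι : Fintype.card ι ≤ m) (a : ι → Fin m → ℝ) (ha : ∀ i k, |a i k| ≤ 1) (p : ℕ) :
    ∀ c : ι → ℕ, (∀ i, c i ≤ 2 ^ p) → ∃ b : ι → ℕ, (∀ i, b i ≤ 1) ∧
      ∀ k, |∑ i, ((b i : ℝ) - c i / 2 ^ p) * a i k| ≤ (1 - 1 / 2 ^ p) * (2003 * √(m : ℝ)) := by
  induction p with
  | zero =>
    intro c hc
    refine ⟨c, fun i => by simpa using hc i, fun k => ?_⟩
    simp
  | succ p ih =>
    intro c hc
    let O := {i : ι // c i % 2 = 1}
    have hO : Fintype.card O ≤ m := (Fintype.card_subtype_le _).trans hι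
    obtain ⟨δ, d1, d2⟩ := full' m hm O hO (fun i => a i.1) (fun i k => ha _ k)
    let c' : ι → ℕ := fun i => if h : c i % 2 = 1 then
      (if δ ⟨i, h⟩ = 1 then (c i + 1) / 2 else c i / 2) else c i / 2
    have hc' : ∀ i, c' i ≤ 2 ^ p := by
      intro i
      have h1 := hc i
      rw [pow_succ] at h1
      show (if h : c i % 2 = 1 then (if δ ⟨i, h⟩ = 1 then (c i + 1) / 2 else c i / 2)
        else c i / 2) ≤ 2 ^ p
      split_ifs with h h'
      · omega
      · omega
      · omega
    have key : ∀ i, (c' i : ℝ) / 2 ^ p - c i / 2 ^ (p + 1) =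
        (if h : c i % 2 = 1 then δ ⟨i, h⟩ else 0) / 2 ^ (p + 1) := by
      intro i
      have hp : (0:ℝ) < 2 ^ p := by positivity
      by_cases h : c i % 2 = 1
      · have hh := Nat.div_add_mod (c i) 2
        rw [h] at hh
        have hc2 : (c i : ℝ) = 2 * (c i / 2 : ℕ) + 1 := by exact_mod_cast hh.symm
        rw [dif_pos h]
        rcases d1 ⟨i, h⟩ with h' | h'
        · have e : c' i = c i / 2 + 1 := by
            show (if h : c i % 2 = 1 then (if δ ⟨i, h⟩ = 1 then (c i + 1) / 2 else c i / 2)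
              else c i / 2) = _
            rw [dif_pos h, if_pos h']; omega
          rw [e, h', hc2, pow_succ]
          push_cast
          field_simp
          ring
        · have e : c' i = c i / 2 := by
            show (if h : c i % 2 = 1 then (if δ ⟨i, h⟩ = 1 then (c i + 1) / 2 else c i / 2)
              else c i / 2) = _
            rw [dif_pos h, if_neg (by rw [h']; norm_num)]
          rw [e, h', hc2, pow_succ]
          field_simp
          ring
      · have h0 : c i % 2 = 0 := by omega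
        have hh := Nat.div_add_mod (c i) 2
        rw [h0, add_zero] at hh
        have hc2 : (c i : ℝ) = 2 * (c i / 2 : ℕ) := by exact_mod_cast hh.symm
        have e : c' i = c i / 2 := by
          show (if h : c i % 2 = 1 then (if δ ⟨i, h⟩ = 1 then (c i + 1) / 2 else c i / 2)
            else c i / 2) = _
          rw [dif_neg h]
        rw [dif_neg h, e, hc2, pow_succ]
        field_simp
        ring
    obtain ⟨b, b1, b2⟩ := ih c' hc'
    refine ⟨b, b1, fun k => ?_⟩
    have e1 : ∑ i, ((b i : ℝ) - c i / 2 ^ (p + 1)) * a i k =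
        ∑ i, ((b i : ℝ) - c' i / 2 ^ p) * a i k +
          (∑ z : O, δ z * a z.1 k) / 2 ^ (p + 1) := by
      have e2 : (∑ z : O, δ z * a z.1 k) =
          ∑ i, (if h : c i % 2 = 1 then δ ⟨i, h⟩ * a i k else 0) := by
        rw [← Finset.sum_filter_add_sum_filter_not univ (fun i => c i % 2 = 1)]
        rw [Finset.sum_eq_zero (s := univ.filter fun i => ¬ c i % 2 = 1), add_zero]
        · rw [Finset.sum_subtype (univ.filter fun i => c i % 2 = 1) (p := fun i => c i % 2 = 1)
            (by simp)]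
          refine Finset.sum_congr rfl fun z _ => ?_
          rw [dif_pos z.2]
        · intro i hi
          rw [dif_neg (by simpa using hi)]
      rw [e2, Finset.sum_div, ← Finset.sum_add_distrib]
      refine Finset.sum_congr rfl fun i _ => ?_
      have hk := key i
      by_cases h : c i % 2 = 1
      · rw [dif_pos h] at hk ⊢
        linear_combination (a i k) * hk
      · rw [dif_neg h] at hk ⊢
        linear_combination (a i k) * hk
    rw [e1]
    have h1 := b2 k
    have h2 := d2 k
    have h3 : |(∑ z : O, δ z * a z.1 k) / 2 ^ (p + 1)| ≤ (2003 * √(m : ℝ)) / 2 ^ (p + 1) := by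
      rw [abs_div, abs_of_pos (show (0:ℝ) < 2 ^ (p + 1) by positivity)]
      gcongr
    refine (abs_add_le _ _).trans ((add_le_add h1 h3).trans (le_of_eq ?_))
    rw [pow_succ]
    field_simp
    ring

/-- rounding of real coefficients in `[-1, 1]` -/
theorem round_real (m : ℕ) (hm : 1 ≤ m) (ι : Type) [Fintype ι] [DecidableEq ι]
    (hι : Fintype.card ι ≤ m) (a : ι → Fin m → ℝ) (ha : ∀ i k, |a i k| ≤ 1)
    (x : ι → ℝ) (hx : ∀ i, |x i| ≤ 1) :
    ∃ δ : ι → ℝ, (∀ i, δ i = 1 ∨ δ i = -1) ∧
      ∀ k, |∑ i, (δ i - x i) * a i k| ≤ 4007 * √(m : ℝ) := by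
  obtain ⟨p, hp⟩ := pow_unbounded_of_one_lt (2 * (m:ℝ)) (one_lt_two (α := ℝ))
  have hp0 : (0:ℝ) < 2 ^ p := by positivity
  have hy : ∀ i, 0 ≤ (1 + x i) / 2 ∧ (1 + x i) / 2 ≤ 1 := by
    intro i
    have := abs_le.mp (hx i)
    constructor <;> linarith [this.1, this.2]
  let c : ι → ℕ := fun i => ⌊(1 + x i) / 2 * 2 ^ p⌋₊
  have hc : ∀ i, c i ≤ 2 ^ p := by
    intro i
    have h1 : (1 + x i) / 2 * 2 ^ p ≤ ((2 ^ p : ℕ) : ℝ) := by
      push_cast
      nlinarith [(hy i).2]
    exact Nat.floor_le_of_le h1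
  obtain ⟨b, b1, b2⟩ := round_dyadic m hm ι hι a ha p c hc
  refine ⟨fun i => 2 * b i - 1, fun i => ?_, fun k => ?_⟩
  · rcases Nat.le_one_iff_eq_zero_or_eq_one.mp (b1 i) with h | h
    · right; show 2 * (b i : ℝ) - 1 = -1; rw [h]; norm_num
    · left; show 2 * (b i : ℝ) - 1 = 1; rw [h]; norm_num
  · have e : ∑ i, ((2 * (b i : ℝ) - 1) - x i) * a i k =
        2 * ∑ i, ((b i : ℝ) - c i / 2 ^ p) * a i k +
          ∑ i, 2 * ((c i : ℝ) / 2 ^ p - (1 + x i) / 2) * a i k := by
      rw [Finset.mul_sum, ← Finset.sum_add_distrib]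
      refine Finset.sum_congr rfl fun i _ => ?_
      ring
    have h1 : |∑ i, 2 * ((c i : ℝ) / 2 ^ p - (1 + x i) / 2) * a i k| ≤ 1 := by
      have h2 : ∀ i, |2 * ((c i : ℝ) / 2 ^ p - (1 + x i) / 2) * a i k| ≤ 2 / 2 ^ p := by
        intro i
        have f1 : (c i : ℝ) ≤ (1 + x i) / 2 * 2 ^ p :=
          Nat.floor_le (mul_nonneg (hy i).1 hp0.le)
        have f2 : (1 + x i) / 2 * 2 ^ p < c i + 1 := Nat.lt_floor_add_one _
        have f3 : |(c i : ℝ) / 2 ^ p - (1 + x i) / 2| ≤ 1 / 2 ^ p := by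
          rw [abs_le]
          constructor
          · rw [neg_le_sub_iff_le_add, ← add_div, le_div_iff₀ hp0]
            exact f2.le
          · have : (c i : ℝ) / 2 ^ p ≤ (1 + x i) / 2 := by rw [div_le_iff₀ hp0]; exact f1
            have : (0:ℝ) ≤ 1 / 2 ^ p := by positivity
            linarith
        rw [abs_mul, abs_mul]
        have f4 := ha i k
        have f5 : (0:ℝ) ≤ 1 / 2 ^ p := by positivity
        calc |(2:ℝ)| * |(c i : ℝ) / 2 ^ p - (1 + x i) / 2| * |a i k|
            ≤ |(2:ℝ)| * (1 / 2 ^ p) * 1 := by gcongr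
          _ = 2 / 2 ^ p := by norm_num; ring
      refine (Finset.abs_sum_le_sum_abs _ _).trans ((Finset.sum_le_sum fun i _ => h2 i).trans ?_)
      rw [Finset.sum_const, Finset.card_univ, nsmul_eq_mul]
      have h3 : (Fintype.card ι : ℝ) ≤ m := by exact_mod_cast hι
      rw [← mul_div_assoc, div_le_one hp0]
      linarith
    rw [e]
    have h4 := b2 k
    have h5 : (1 - 1 / 2 ^ p) * (2003 * √(m : ℝ)) ≤ 2003 * √(m : ℝ) := by
      have : (0:ℝ) ≤ 1 / 2 ^ p := by positivity
      have h6 : (0:ℝ) ≤ 2003 * √(m : ℝ) := by positivity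
      nlinarith
    have h7 : 1 ≤ √(m:ℝ) := by
      rw [Real.one_le_sqrt]; exact_mod_cast hm
    have h8 : |2 * ∑ i, ((b i : ℝ) - c i / 2 ^ p) * a i k| ≤ 2 * (2003 * √(m : ℝ)) := by
      rw [abs_mul, abs_of_pos (by norm_num : (0:ℝ) < 2)]
      linarith
    refine (abs_add_le _ _).trans ?_
    linarith

end Pool.Agent.Helper8.VB
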