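import Pool.Agent.Helper8.VB.A
import Pool.Agent.Q189.ZonMain
import Pool.Agent.W555.ZL

/-! Vector balancing for zonotopes. -/

set_option autoImplicit false

open Finset

namespace Pool.Agent.Helper8.VB

/-- a solution of the relation with few coefficients of absolute value less than one -/
theorem few_fractional (m n : ℕ) (a : Fin n → Fin m → ℝ) :
    ∃ x : Fin n → ℝ, (∀ i, |x i| ≤ 1) ∧ (∀ k, ∑ i, x i * a i k = 0) ∧
      (univ.filter fun i => |x i| < 1).card ≤ m := by
  classical
  -- choose a solution with the smallest number of such coefficients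
  let Q : ℕ → Prop := fun N => ∃ x : Fin n → ℝ, (∀ i, |x i| ≤ 1) ∧ (∀ k, ∑ i, x i * a i k = 0) ∧
      (univ.filter fun i => |x i| < 1).card = N
  have hQ : ∃ N, Q N := ⟨_, fun _ => 0, fun _ => by simp, fun _ => by simp, rfl⟩
  obtain ⟨x, hx1, hx2, hx3⟩ := Nat.find_spec hQ
  refine ⟨x, hx1, hx2, ?_⟩
  by_contra hcon
  push Not at hcon
  set F : Finset (Fin n) := univ.filter fun i => |x i| < 1 with hF
  have hdep : ¬ LinearIndependent ℝ (fun i : F => a i.1) := by
    intro h
    have := h.fintype_card_le_finrank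
    rw [Module.finrank_fin_fun, Fintype.card_coe] at this
    omega
  rw [Fintype.not_linearIndependent_iff] at hdep
  obtain ⟨g, hg1, i0, hi0⟩ := hdep
  let y : Fin n → ℝ := fun i => if h : i ∈ F then g ⟨i, h⟩ else 0
  have hy0 : y i0.1 ≠ 0 := by
    show (if h : i0.1 ∈ F then g ⟨i0.1, h⟩ else 0) ≠ 0
    rw [dif_pos i0.2]; exact hi0
  have hyF : ∀ i, y i ≠ 0 → i ∈ F := by
    intro i hi
    by_contra h
    apply hi
    show (if h : i ∈ F then g ⟨i, h⟩ else 0) = 0
    rw [dif_neg h]
  have hysum : ∀ k, ∑ i, y i * a i k = 0 := by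
    intro k
    have h1 : ∑ i, y i * a i k = ∑ i ∈ F, y i * a i k := by
      refine (Finset.sum_subset (Finset.subset_univ F) fun i _ hi => ?_).symm
      have : y i = 0 := by
        by_contra h; exact hi (hyF i h)
      rw [this, zero_mul]
    rw [h1, ← Finset.sum_coe_sort]
    have h2 := congrFun hg1 k
    simp only [Finset.sum_apply, Pi.smul_apply, smul_eq_mul, Pi.zero_apply] at h2
    rw [← h2]
    refine Finset.sum_congr rfl fun i _ => ?_
    show (if h : i.1 ∈ F then g ⟨i.1, h⟩ else 0) * _ = _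
    rw [dif_pos i.2]
  -- the step
  let S : Finset (Fin n) := univ.filter fun i => y i ≠ 0
  let τ : Fin n → ℝ := fun i => (|y i| - y i * x i) / y i ^ 2
  obtain ⟨j, hjS, hjmin⟩ := Finset.exists_min_image S τ ⟨i0.1, by simp [S, hy0]⟩
  have hj : y j ≠ 0 := (Finset.mem_filter.mp hjS).2
  have τnn : ∀ i, y i ≠ 0 → 0 ≤ τ i := by
    intro i hi
    have h1 : |y i * x i| ≤ |y i| := by
      rw [abs_mul]
      have := hx1 i
      have := abs_nonneg (y i)
      nlinarith
    have h2 := le_abs_self (y i * x i)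
    exact div_nonneg (by linarith) (sq_nonneg _)
  have end_pt : ∀ i, y i ≠ 0 → x i + τ i * y i = |y i| / y i := by
    intro i hi
    show x i + (|y i| - y i * x i) / y i ^ 2 * y i = _
    field_simp
    ring
  have abs_end : ∀ i, y i ≠ 0 → |(|y i| / y i)| = 1 := by
    intro i hi
    rw [abs_div, abs_abs, div_self (abs_ne_zero.mpr hi)]
  set t := τ j with ht
  have ht0 : 0 ≤ t := τnn j hj
  let z : Fin n → ℝ := fun i => x i + t * y i
  have hz1 : ∀ i, |z i| ≤ 1 := by
    intro i
    by_cases hi : y i = 0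
    · show |x i + t * y i| ≤ 1
      rw [hi, mul_zero, add_zero]; exact hx1 i
    · have h1 : t ≤ τ i := hjmin i (by simp [S, hi])
      have h2 := end_pt i hi
      have h3 := abs_end i hi
      have h4 := abs_le.mp (hx1 i)
      have h5 : |x i + τ i * y i| ≤ 1 := by rw [h2, h3]
      have h6 := abs_le.mp h5
      show |x i + t * y i| ≤ 1
      rw [abs_le]
      rcases le_total 0 (y i) with hs | hs
      · have h7 : t * y i ≤ τ i * y i := mul_le_mul_of_nonneg_right h1 hs
        have h8 : 0 ≤ t * y i := mul_nonneg ht0 hs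
        constructor <;> linarith [h4.1, h4.2, h6.1, h6.2]
      · have h7 : τ i * y i ≤ t * y i := mul_le_mul_of_nonpos_right h1 hs
        have h8 : t * y i ≤ 0 := mul_nonpos_of_nonneg_of_nonpos ht0 hs
        constructor <;> linarith [h4.1, h4.2, h6.1, h6.2]
  have hz2 : ∀ k, ∑ i, z i * a i k = 0 := by
    intro k
    have : ∑ i, z i * a i k = ∑ i, x i * a i k + t * ∑ i, y i * a i k := by
      rw [Finset.mul_sum, ← Finset.sum_add_distrib]
      refine Finset.sum_congr rfl fun i _ => ?_
      show (x i + t * y i) * a i k = _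
      ring
    rw [this, hx2, hysum]; simp
  have hsub : (univ.filter fun i => |z i| < 1) ⊂ F := by
    rw [Finset.ssubset_iff_of_subset]
    · refine ⟨j, hyF j hj, ?_⟩
      intro h
      have h1 := (Finset.mem_filter.mp h).2
      have h2 : z j = |y j| / y j := end_pt j hj
      rw [h2, abs_end j hj] at h1
      exact lt_irrefl _ h1
    · intro i hi
      by_cases h : y i = 0
      · have h1 := (Finset.mem_filter.mp hi).2
        have h2 : z i = x i := by show x i + t * y i = x i; rw [h]; ring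
        rw [h2] at h1
        exact Finset.mem_filter.mpr ⟨Finset.mem_univ _, h1⟩
      · exact hyF i h
  have hlt := Finset.card_lt_card hsub
  rw [hx3] at hlt
  exact Nat.find_min hQ hlt ⟨z, hz1, hz2, rfl⟩

/-- six standard deviations for any number of vectors -/
theorem spencer_any (m : ℕ) (hm : 1 ≤ m) (n : ℕ) (a : Fin n → Fin m → ℝ)
    (ha : ∀ i k, |a i k| ≤ 1) :
    ∃ δ : Fin n → ℝ, (∀ i, δ i = 1 ∨ δ i = -1) ∧
      ∀ k, |∑ i, δ i * a i k| ≤ 4007 * √(m : ℝ) := by
  classical
  obtain ⟨x, h1, h2, h3⟩ := few_fractional m n a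
  let ι := {i : Fin n // |x i| < 1}
  have hι : Fintype.card ι ≤ m := by rw [Fintype.card_subtype]; exact h3
  obtain ⟨η, g1, g2⟩ := round_real m hm ι hι (fun i => a i.1) (fun i k => ha _ k)
    (fun i => x i.1) (fun i => h1 _)
  refine ⟨fun i => if h : |x i| < 1 then η ⟨i, h⟩ else x i, fun i => ?_, fun k => ?_⟩
  · by_cases h : |x i| < 1
    · simp only [h, dif_pos]; exact g1 _
    · simp only [h, dif_neg, not_false_eq_true]
      have : |x i| = 1 := le_antisymm (h1 i) (not_lt.mp h)
      exact eq_or_eq_neg_of_abs_eq this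
  · have e : ∑ i, (if h : |x i| < 1 then η ⟨i, h⟩ else x i) * a i k =
        ∑ i, x i * a i k + ∑ z : ι, (η z - x z.1) * a z.1 k := by
      have e1 : ∑ z : ι, (η z - x z.1) * a z.1 k =
          ∑ i, (if h : |x i| < 1 then (η ⟨i, h⟩ - x i) * a i k else 0) := by
        rw [← Finset.sum_filter_add_sum_filter_not univ (fun i => |x i| < 1)]
        rw [Finset.sum_eq_zero (s := univ.filter fun i => ¬ |x i| < 1), add_zero]
        · rw [Finset.sum_subtype (univ.filter fun i => |x i| < 1) (p := fun i => |x i| < 1)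
            (by simp)]
          refine Finset.sum_congr rfl fun z _ => ?_
          rw [dif_pos z.2]
        · intro i hi
          rw [dif_neg (Finset.mem_filter.mp hi).2]
      rw [e1, ← Finset.sum_add_distrib]
      refine Finset.sum_congr rfl fun i _ => ?_
      by_cases h : |x i| < 1
      · rw [dif_pos h, dif_pos h]; ring
      · rw [dif_neg h, dif_neg h]; ring
    rw [e, h2, zero_add]
    exact g2 k

open scoped RealInnerProductSpace in
open Pool.Agent.H902R3.ZA Pool.Agent.H172R2.ZS in
/-- vector balancing for zonotopes, in coordinates -/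
theorem vb_zonotope : ∃ C : ℝ, 0 < C ∧
      ∀ (d m : ℕ) (v : Fin m → (Fin d → ℝ)) (n : ℕ) (u : Fin n → (Fin d → ℝ)),
        (∀ i, ∃ t : Fin m → ℝ, (∀ j, t j ∈ Set.Icc (-1 : ℝ) 1) ∧
            u i = ∑ j, t j • v j) →
        ∃ ε : Fin n → ℝ, (∀ i, ε i = 1 ∨ ε i = -1) ∧
          ∃ s : Fin m → ℝ, (∀ j, s j ∈ Set.Icc (-1 : ℝ) 1) ∧
            ∑ i, ε i • u i = (C * Real.sqrt d) • ∑ j, s j • v j := by
  obtain ⟨C, hC, H⟩ := Pool.Agent.W555.ZL.vec Q189.ZonMain.iter
  refine ⟨3 / 2 * 4007 * √(4 * C), by positivity, fun d m v n u hu => ?_⟩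
  choose t ht htu using hu
  obtain ⟨N, w, hN, hw⟩ := H d m (fun j => WithLp.toLp 2 (v j)) (1/2) (by norm_num) le_rfl
  have hN' : (N : ℝ) ≤ 4 * C * d := by
    refine hN.trans (le_of_eq ?_)
    norm_num; ring
  -- the vectors in terms of the small zonotope
  have hmem : ∀ i, ∃ r : Fin N → ℝ, (∀ k, |r k| ≤ 1) ∧
      (WithLp.toLp 2 (u i) : E d) = (3/2 : ℝ) • ∑ k, r k • w k := by
    intro i
    obtain ⟨z, hz, hz2⟩ := ZSUP_ok d N m w (fun j => WithLp.toLp 2 (v j)) (3/2) (by norm_num)
      (fun x => by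
        have := (hw x).2
        norm_num at this ⊢
        exact this) (WithLp.toLp 2 (u i)) ⟨t i, ht i, by rw [htu i]; simp⟩
    obtain ⟨r, hr, hr2⟩ := hz
    refine ⟨r, fun k => abs_le.mpr (hr k), ?_⟩
    rw [hz2, hr2]
  choose r hr hru using hmem
  rcases Nat.eq_zero_or_pos N with h0 | h0
  · -- the small zonotope is trivial
    subst h0
    have hu0 : ∀ i, u i = 0 := by
      intro i
      have := hru i
      simp only [Finset.univ_eq_empty, Finset.sum_empty, smul_zero] at this
      exact (WithLp.toLp_injective 2) (by rw [this]; rfl)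
    refine ⟨fun _ => 1, fun _ => Or.inl rfl, fun _ => 0, fun _ => by simp, ?_⟩
    simp [hu0]
  · obtain ⟨δ, d1, d2⟩ := spencer_any N h0 n r hr
    refine ⟨δ, d1, ?_⟩
    set D : ℝ := 4007 * √(N : ℝ) with hD
    have hNpos : (1:ℝ) ≤ N := by exact_mod_cast h0
    have hDpos : 0 < D := by positivity
    -- the sum lies in a multiple of the small zonotope
    have hsum : (WithLp.toLp 2 (∑ i, δ i • u i) : E d) =
        (3/2 * D) • ∑ k, ((∑ i, δ i * r i k) / D) • w k := by
      have e1 : (WithLp.toLp 2 (∑ i, δ i • u i) : E d) = ∑ i, δ i • (WithLp.toLp 2 (u i) : E d) := by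
        simp
      rw [e1]
      have e2 : ∀ i, δ i • (WithLp.toLp 2 (u i) : E d) =
          (3/2 : ℝ) • ∑ k, (δ i * r i k) • w k := by
        intro i
        rw [hru i, smul_comm, Finset.smul_sum]
        congr 1
        refine Finset.sum_congr rfl fun k _ => ?_
        rw [smul_smul]
      simp only [e2]
      rw [← Finset.smul_sum, Finset.sum_comm, mul_smul, Finset.smul_sum (r := D)]
      congr 1
      refine Finset.sum_congr rfl fun k _ => ?_
      rw [smul_smul, mul_div_cancel₀ _ hDpos.ne', Finset.sum_smul]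
    obtain ⟨z, hz, hz2⟩ := ZSUP_ok d m N (fun j => WithLp.toLp 2 (v j)) w 1 (by norm_num)
      (fun x => by rw [one_mul]; exact (hw x).1)
      (∑ k, ((∑ i, δ i * r i k) / D) • w k)
      ⟨fun k => (∑ i, δ i * r i k) / D, fun k => by
        have := d2 k
        rw [Set.mem_Icc, ← abs_le, abs_div, abs_of_pos hDpos, div_le_one hDpos]
        exact this, rfl⟩
    obtain ⟨s, hs, hs2⟩ := hz
    rw [one_smul] at hz2
    have hsum2 : ∑ i, δ i • u i = (3/2 * D) • ∑ j, s j • v j := by
      apply WithLp.toLp_injective 2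
      rw [hsum, hz2, hs2]
      simp
    -- compare the constants
    set K : ℝ := 3 / 2 * 4007 * √(4 * C) * √(d:ℝ) with hK
    have hDK : 3 / 2 * D ≤ K := by
      have : √(N : ℝ) ≤ √(4 * C) * √(d : ℝ) := by
        rw [← Real.sqrt_mul (by positivity)]
        exact Real.sqrt_le_sqrt hN'
      rw [hD, hK]
      nlinarith
    have hKpos : 0 < K := by linarith
    refine ⟨fun j => (3/2 * D / K) * s j, fun j => ?_, ?_⟩
    · have h1 := hs j
      have h2 : 0 ≤ 3/2 * D / K := by positivity
      have h3 : 3/2 * D / K ≤ 1 := by rw [div_le_one hKpos]; exact hDK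
      rw [Set.mem_Icc] at h1 ⊢
      constructor <;> nlinarith [h1.1, h1.2]
    · have e3 : ∑ j, ((3/2 * D / K) * s j) • v j = (3/2 * D / K) • ∑ j, s j • v j := by
        rw [Finset.smul_sum]
        exact Finset.sum_congr rfl fun j _ => mul_smul _ _ _
      have e4 : K * (3/2 * D / K) = 3/2 * D := by field_simp
      show ∑ i, δ i • u i = K • ∑ j, ((3/2 * D / K) * s j) • v j
      rw [e3, smul_smul, e4, hsum2]

end Pool.Agent.Helper8.VB
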